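import Pool.Agent.REV.StmtsV3
import Pool.Agent.Helper26_REV.BSV

set_option autoImplicit false

/-! Squad REV (MP_bbfd73_gt), part V3, row BS3: the bootstrap in dimension 3 (adapted from row BSV of helper26). -/

namespace Pool.Agent.REV.H43

open Set MeasureTheory Filter
open scoped Topology

open Pool.Agent.REV Pool.Agent.REV.H26 in
theorem bs3 : Bs3Stmt := by
  intro R D0 y hD0 hmono hy hinf hint
  have hR : 0 ≤ R := (hy 1 one_pos).1.trans (hy 1 one_pos).2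
  -- choice of q
  obtain ⟨q, hq, hyq⟩ := hinf (1 / (8 * D0)) (by positivity)
  have hyq0 := (hy q hq).1
  have hDq : D0 * y q ≤ 1 / 8 := by
    calc D0 * y q ≤ D0 * (1 / (8 * D0)) := mul_le_mul_of_nonneg_left hyq.le hD0.le
      _ = 1 / 8 := by field_simp
  set U : ℝ := ∫ β in Ioi q, (β ^ 2)⁻¹ * y β ^ 2 with hU
  have hU0 : 0 ≤ U := by
    apply setIntegral_nonneg measurableSet_Ioi
    intro β hβ
    have hβ0 : 0 < β := hq.trans hβ
    exact mul_nonneg (by positivity) (pow_nonneg (hy β hβ0).1 _)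
  have hpow2 : ∀ β : ℝ, 0 < β → (β ^ 2)⁻¹ = β ^ (-2 : ℝ) := by
    intro β hβ
    rw [Real.rpow_neg hβ.le]
    norm_cast
  set A : ℝ := D0 * q ^ (1 / 4 : ℝ) * U with hA
  have hA0 : 0 ≤ A := by positivity
  -- first step: the bound with exponent 3/4
  have key : ∀ p : ℝ, 0 < p → p ≤ q → ∀ M : ℝ, 0 ≤ M →
      (∀ b : ℝ, p ≤ b → b ≤ q → y b ≤ M * b ^ (3 / 4 : ℝ)) →
      ∀ b : ℝ, p ≤ b → b ≤ q → y b ≤ (A + M / 2) * b ^ (3 / 4 : ℝ) := by
    intro p hp _ M hM hyp b hpb hbq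
    have hb : 0 < b := hp.trans_le hpb
    obtain ⟨hi, hle⟩ := hint b hb
    have h1 := tail_le (fun β => (β ^ 2)⁻¹ * y β ^ 2) b q (y q * M) (-5 / 4) hb hbq
      (by norm_num) hi (by
        intro β hbβ hβq
        have hβ : 0 < β := hb.trans hbβ
        have h2 : y β ≤ M * β ^ (3 / 4 : ℝ) := hyp β (hpb.trans hbβ.le) hβq
        have h3 : y β ≤ y q := hmono hβ hq hβq
        have h4 : y β ^ 2 ≤ y q * (M * β ^ (3 / 4 : ℝ)) := by
          rw [pow_two]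
          exact mul_le_mul h3 h2 (hy β hβ).1 hyq0
        have h5 : (β ^ 2)⁻¹ * β ^ (3 / 4 : ℝ) = β ^ (-5 / 4 : ℝ) := by
          rw [hpow2 β hβ, ← Real.rpow_add hβ]
          norm_num
        calc (β ^ 2)⁻¹ * y β ^ 2 ≤ (β ^ 2)⁻¹ * (y q * (M * β ^ (3 / 4 : ℝ))) :=
              mul_le_mul_of_nonneg_left h4 (by positivity)
          _ = y q * M * ((β ^ 2)⁻¹ * β ^ (3 / 4 : ℝ)) := by ring
          _ = y q * M * β ^ (-5 / 4 : ℝ) := by rw [h5])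
    have h6 : (q ^ ((-5 / 4 : ℝ) + 1) - b ^ ((-5 / 4 : ℝ) + 1)) / ((-5 / 4 : ℝ) + 1) ≤
        4 * b ^ (-1 / 4 : ℝ) := by
      have e2 : (-5 / 4 : ℝ) + 1 = -1 / 4 := by norm_num
      rw [e2]
      have h7 : 0 ≤ q ^ (-1 / 4 : ℝ) := Real.rpow_nonneg hq.le _
      have e3 : (q ^ (-1 / 4 : ℝ) - b ^ (-1 / 4 : ℝ)) / (-1 / 4 : ℝ) =
        4 * b ^ (-1 / 4 : ℝ) - 4 * q ^ (-1 / 4 : ℝ) := by ring
      rw [e3]
      linarith
    have hyM : 0 ≤ y q * M := by positivity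
    have h8 : ∫ β in Ioi b, (β ^ 2)⁻¹ * y β ^ 2 ≤
        y q * M * (4 * b ^ (-1 / 4 : ℝ)) + U := by
      refine h1.trans ?_
      exact add_le_add (mul_le_mul_of_nonneg_left h6 hyM) le_rfl
    have hbb : b * b ^ (-1 / 4 : ℝ) = b ^ (3 / 4 : ℝ) := by
      have h9 : b * b ^ (-1 / 4 : ℝ) = b ^ (1 : ℝ) * b ^ (-1 / 4 : ℝ) := by rw [Real.rpow_one]
      rw [h9, ← Real.rpow_add hb]
      norm_num
    have hbb2 : b ≤ q ^ (1 / 4 : ℝ) * b ^ (3 / 4 : ℝ) := by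
      have h9 : b = b ^ (1 / 4 : ℝ) * b ^ (3 / 4 : ℝ) := by
        rw [← Real.rpow_add hb]
        norm_num
      calc b = b ^ (1 / 4 : ℝ) * b ^ (3 / 4 : ℝ) := h9
        _ ≤ q ^ (1 / 4 : ℝ) * b ^ (3 / 4 : ℝ) :=
          mul_le_mul_of_nonneg_right (Real.rpow_le_rpow hb.le hbq (by norm_num))
            (Real.rpow_nonneg hb.le _)
    have hs0 : 0 ≤ b ^ (3 / 4 : ℝ) := Real.rpow_nonneg hb.le _
    calc y b ≤ D0 * (b * ∫ β in Ioi b, (β ^ 2)⁻¹ * y β ^ 2) := hle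
      _ ≤ D0 * (b * (y q * M * (4 * b ^ (-1 / 4 : ℝ)) + U)) := by
          apply mul_le_mul_of_nonneg_left _ hD0.le
          exact mul_le_mul_of_nonneg_left h8 hb.le
      _ = (D0 * y q) * (4 * M * (b * b ^ (-1 / 4 : ℝ))) + D0 * U * b := by ring
      _ = (D0 * y q) * (4 * M * b ^ (3 / 4 : ℝ)) + D0 * U * b := by rw [hbb]
      _ ≤ 1 / 8 * (4 * M * b ^ (3 / 4 : ℝ)) + D0 * U * (q ^ (1 / 4 : ℝ) * b ^ (3 / 4 : ℝ)) := by
          apply add_le_add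
          · exact mul_le_mul_of_nonneg_right hDq (by positivity)
          · exact mul_le_mul_of_nonneg_left hbb2 (by positivity)
      _ = (A + M / 2) * b ^ (3 / 4 : ℝ) := by
          rw [hA]
          ring
  have sq : ∀ b : ℝ, 0 < b → b ≤ q → y b ≤ (2 * A) * b ^ (3 / 4 : ℝ) := by
    intro p hp hpq
    set S : Set ℝ := (fun b => y b / b ^ (3 / 4 : ℝ)) '' Icc p q with hS
    have hne : S.Nonempty := ⟨_, mem_image_of_mem _ ⟨le_rfl, hpq⟩⟩
    have hbd : BddAbove S := by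
      refine ⟨R / p ^ (3 / 4 : ℝ), ?_⟩
      rintro _ ⟨b, hb, rfl⟩
      have hb0 : 0 < b := hp.trans_le hb.1
      exact div_le_div₀ hR (hy b hb0).2 (Real.rpow_pos_of_pos hp _)
        (Real.rpow_le_rpow hp.le hb.1 (by norm_num))
    have hM0 : 0 ≤ sSup S := by
      apply le_csSup_of_le hbd (mem_image_of_mem _ ⟨le_rfl, hpq⟩ : _ ∈ S)
      exact div_nonneg (hy p hp).1 (Real.rpow_nonneg hp.le _)
    have hyp : ∀ b : ℝ, p ≤ b → b ≤ q → y b ≤ sSup S * b ^ (3 / 4 : ℝ) := by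
      intro b hpb hbq
      have hb0 : 0 < b := hp.trans_le hpb
      rw [← div_le_iff₀ (Real.rpow_pos_of_pos hb0 _)]
      exact le_csSup hbd (mem_image_of_mem _ ⟨hpb, hbq⟩)
    have h1 := key p hp hpq (sSup S) hM0 hyp
    have h2 : sSup S ≤ A + sSup S / 2 := by
      apply csSup_le hne
      rintro _ ⟨b, hb, rfl⟩
      have hb0 : 0 < b := hp.trans_le hb.1
      show y b / b ^ (3 / 4 : ℝ) ≤ _
      rw [div_le_iff₀ (Real.rpow_pos_of_pos hb0 _)]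
      exact h1 b hb.1 hb.2
    have h3 : sSup S ≤ 2 * A := by linarith
    exact (hyp p le_rfl hpq).trans
      (mul_le_mul_of_nonneg_right h3 (Real.rpow_nonneg hp.le _))
  -- second step
  set M : ℝ := 2 * A with hM
  have hM0 : 0 ≤ M := by positivity
  set V : ℝ := M ^ 2 * (2 * q ^ (1 / 2 : ℝ)) + U with hV
  have hV0 : 0 ≤ V := by positivity
  refine ⟨max (D0 * V) (R / q), le_max_of_le_left (by positivity), ?_⟩
  intro b hb
  rcases le_total b q with hbq | hbq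
  · obtain ⟨hi, hle⟩ := hint b hb
    have h1 := tail_le (fun β => (β ^ 2)⁻¹ * y β ^ 2) b q (M ^ 2) (-1 / 2) hb hbq
      (by norm_num) hi (by
        intro β hbβ hβq
        have hβ : 0 < β := hb.trans hbβ
        have h2 : y β ≤ M * β ^ (3 / 4 : ℝ) := sq β hβ hβq
        have h4 : y β ^ 2 ≤ (M * β ^ (3 / 4 : ℝ)) ^ 2 :=
          pow_le_pow_left₀ (hy β hβ).1 h2 _
        have h5 : (β ^ 2)⁻¹ * (β ^ (3 / 4 : ℝ)) ^ 2 = β ^ (-1 / 2 : ℝ) := by
          rw [hpow2 β hβ, ← Real.rpow_natCast (β ^ (3 / 4 : ℝ)) 2, ← Real.rpow_mul hβ.le,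
            ← Real.rpow_add hβ]
          norm_num
        calc (β ^ 2)⁻¹ * y β ^ 2 ≤ (β ^ 2)⁻¹ * (M * β ^ (3 / 4 : ℝ)) ^ 2 :=
              mul_le_mul_of_nonneg_left h4 (by positivity)
          _ = M ^ 2 * ((β ^ 2)⁻¹ * (β ^ (3 / 4 : ℝ)) ^ 2) := by ring
          _ = M ^ 2 * β ^ (-1 / 2 : ℝ) := by rw [h5])
    have h6 : (q ^ ((-1 / 2 : ℝ) + 1) - b ^ ((-1 / 2 : ℝ) + 1)) / ((-1 / 2 : ℝ) + 1) ≤
        2 * q ^ (1 / 2 : ℝ) := by
      have e2 : (-1 / 2 : ℝ) + 1 = 1 / 2 := by norm_num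
      rw [e2]
      have h7 : 0 ≤ b ^ (1 / 2 : ℝ) := Real.rpow_nonneg hb.le _
      have e3 : (q ^ (1 / 2 : ℝ) - b ^ (1 / 2 : ℝ)) / (1 / 2 : ℝ) =
        2 * q ^ (1 / 2 : ℝ) - 2 * b ^ (1 / 2 : ℝ) := by ring
      rw [e3]
      linarith
    have h8 : ∫ β in Ioi b, (β ^ 2)⁻¹ * y β ^ 2 ≤ V := by
      refine h1.trans ?_
      exact add_le_add (mul_le_mul_of_nonneg_left h6 (by positivity)) le_rfl
    calc y b ≤ D0 * (b * ∫ β in Ioi b, (β ^ 2)⁻¹ * y β ^ 2) := hle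
      _ ≤ D0 * (b * V) := by
          apply mul_le_mul_of_nonneg_left _ hD0.le
          exact mul_le_mul_of_nonneg_left h8 hb.le
      _ = D0 * V * b := by ring
      _ ≤ max (D0 * V) (R / q) * b := mul_le_mul_of_nonneg_right (le_max_left _ _) hb.le
  · calc y b ≤ R := (hy b hb).2
      _ = R / q * q := by field_simp
      _ ≤ R / q * b := mul_le_mul_of_nonneg_left hbq (by positivity)
      _ ≤ max (D0 * V) (R / q) * b := mul_le_mul_of_nonneg_right (le_max_right _ _) hb.le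

end Pool.Agent.REV.H43
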