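import Pool.Agent.REV.StmtsG2
import Pool.Agent.BPH.Sph

/-!
# Squad REV (MP_bbfd73_gt), row LWH: the law of the height on the unit sphere
-/

set_option autoImplicit false

open MeasureTheory Module Set Filter
open scoped RealInnerProductSpace Pointwise Topology ENNReal

namespace Pool.Agent.REV.H43

open Pool.Agent.BPH Pool.Agent.REV

theorem lwh_main (rad : RadStmt) (rle : RleStmt) (pjw : PjwStmt)
    (F : Type) [NormedAddCommGroup F] [InnerProductSpace ℝ F] [FiniteDimensional ℝ F]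
    [MeasurableSpace F] [BorelSpace F] (hk : 3 ≤ finrank ℝ F) (e : F) (he : ‖e‖ = 1)
    (ψ : ℝ → ℝ) (hψ : BM ψ) :
    (volume (Metric.ball (0 : F) 1)).toReal * ∫ x, ψ ⟪e, x⟫ ∂sph F =
      (finrank ℝ (ℝ ∙ e)ᗮ * (volume (Metric.ball (0 : (ℝ ∙ e)ᗮ) 1)).toReal *
        (((finrank ℝ F - 2 : ℕ) : ℝ) + 2)⁻¹) *
        ∫ x in (-1 : ℝ)..1, (1 - x ^ 2) ^ (((finrank ℝ F : ℝ) - 3) / 2) * ψ x := by
  have he0 : e ≠ 0 := by
    intro h
    rw [h, norm_zero] at he
    exact zero_ne_one he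
  have hdim : finrank ℝ (ℝ ∙ e)ᗮ + 1 = finrank ℝ F := by
    have h1 := Submodule.finrank_add_finrank_orthogonal (𝕜 := ℝ) (ℝ ∙ e)
    rw [finrank_span_singleton he0] at h1
    omega
  have : Nontrivial F := Module.nontrivial_of_finrank_pos (R := ℝ) (by omega)
  have : Nontrivial (ℝ ∙ e)ᗮ := Module.nontrivial_of_finrank_pos (R := ℝ) (by omega)
  obtain ⟨hm, C, hC⟩ := hψ
  have hT : Tst (fun x : F => ψ ⟪e, x⟫) :=
    ⟨hm.comp (by fun_prop), C, fun x => hC _⟩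
  have h1 := (rad F).1 (fun x : F => ψ ⟪e, x⟫) hT
  have h2 := rle F (ℝ ∙ e)ᗮ ℝ (ℝ ∙ e)ᗮ.subtypeₗᵢ (LinearIsometry.toSpanSingleton ℝ F he)
    (by
      intro y z
      have h3 : ⟪(y : F), e⟫ = 0 := by
        rw [real_inner_comm]
        exact (Submodule.mem_orthogonal _ _).1 y.2 e (Submodule.mem_span_singleton_self e)
      simp only [Submodule.coe_subtypeₗᵢ, LinearIsometry.toSpanSingleton_apply]
      rw [Submodule.coe_subtype, inner_smul_right, h3, mul_zero])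
    (by rw [finrank_self]; exact hdim) 0 (fun x : F => ψ ⟪e, x⟫) (fun p : ℝ × ℝ => ψ p.2) hT
    ⟨hm.comp measurable_snd, C, fun x => hC _⟩
    (by
      intro y z _
      have h3 : ⟪e, (y : F)⟫ = 0 :=
        (Submodule.mem_orthogonal _ _).1 y.2 e (Submodule.mem_span_singleton_self e)
      simp only [Submodule.coe_subtypeₗᵢ, LinearIsometry.toSpanSingleton_apply]
      rw [Submodule.coe_subtype, inner_add_right, inner_smul_right, h3,
        real_inner_self_eq_norm_sq, he]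
      simp)
  have h4 := pjw (finrank ℝ F - 2) (by omega) ψ ⟨hm, C, hC⟩
  have h5 : Jw (V := ℝ) (finrank ℝ (ℝ ∙ e)ᗮ - 1 + 0) (fun p : ℝ × ℝ => ψ p.2) =
      ∫ z : ℝ, ∫ r in Ioi (0 : ℝ), (if r ^ 2 + z ^ 2 < 1 then
        r ^ (finrank ℝ F - 2) * ψ (z / Real.sqrt (r ^ 2 + z ^ 2)) else 0) := by
    unfold Jw
    have h6 : finrank ℝ (ℝ ∙ e)ᗮ - 1 + 0 = finrank ℝ F - 2 := by omega
    rw [h6]
    refine integral_congr_ae (ae_of_all _ fun z => ?_)
    refine integral_congr_ae (ae_of_all _ fun r => ?_)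
    simp only [Real.norm_eq_abs, sq_abs, smul_eq_mul]
    rw [div_eq_inv_mul]
  rw [← h1]
  have h7 : ∫ x in Metric.ball (0 : F) 1, ‖x‖ ^ 0 * (fun x : F => ψ ⟪e, x⟫) (nrm x) =
      ∫ x in Metric.ball (0 : F) 1, (fun x : F => ψ ⟪e, x⟫) (nrm x) := by
    simp only [pow_zero, one_mul]
  rw [← h7, h2, h5, h4]
  have h8 : (((finrank ℝ F - 2 : ℕ) : ℝ) - 1) / 2 = ((finrank ℝ F : ℝ) - 3) / 2 := by
    rw [Nat.cast_sub (by omega)]
    push_cast
    ring
  rw [h8]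
  ring

theorem lwh (rad : RadStmt) (rle : RleStmt) (pjw : PjwStmt) : LwhStmt := by
  intro F _ _ _ _ _ hk e he ψ hψ
  have h1 := lwh_main rad rle pjw F hk e he ψ hψ
  have h2 := lwh_main rad rle pjw F hk e he (fun _ => 1) ⟨measurable_const, 1, fun _ => by simp⟩
  have : IsProbabilityMeasure (sph F) := sph_facts.prob
  simp only [mul_one, integral_const, probReal_univ, smul_eq_mul] at h2
  have hv : (volume (Metric.ball (0 : F) 1)).toReal ≠ 0 :=
    (ENNReal.toReal_pos (Metric.measure_ball_pos volume (0 : F) one_pos).ne'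
      measure_ball_lt_top.ne).ne'
  generalize (finrank ℝ (ℝ ∙ e)ᗮ * (volume (Metric.ball (0 : (ℝ ∙ e)ᗮ) 1)).toReal *
        (((finrank ℝ F - 2 : ℕ) : ℝ) + 2)⁻¹) = c at h1 h2
  rw [h2] at h1 hv
  have hc : c ≠ 0 := left_ne_zero_of_mul hv
  rw [mul_assoc] at h1
  exact mul_left_cancel₀ hc h1

end Pool.Agent.REV.H43
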