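import Pool.Agent.REV.StmtsC

/-!
# Squad REV (MP_bbfd73_gt), row SOC: a translate of a centred solution is a solution of order n-1
-/

set_option autoImplicit false

open MeasureTheory Module Set Filter
open scoped RealInnerProductSpace Pointwise Topology ENNReal

namespace Pool.Agent.REV.H43

open Pool.Agent.REV Pool.Agent.Helper55_PB Pool.Agent.Helper28_PB

theorem soc (pbo : PboStmt) : SocStmt := by
  intro E _ _ _ _ _ K K' a c hn hK hG
  obtain ⟨hC, L, hL, hH⟩ := isSolution_of_good hK hG
  exact ⟨hC, L, (pbo K L hn hC).2 hL, hH⟩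

end Pool.Agent.REV.H43
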